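import Pool.Agent.H15.Defect.Dle

/-!
# Extension of the base field: smoothable schemes stay smoothable
-/

open TensorProduct Module PowerSeries

namespace Pool.Agent.H2.FI

open Pool.Agent.H12.Defect Pool.Agent.H15.Defect

universe u

/-- Finite reduced algebras over an algebraically closed field stay reduced. -/
theorem isReduced_baseChange_field (Ω Ω' : Type*) [Field Ω] [IsAlgClosed Ω] [Field Ω']
    [Algebra Ω Ω'] (S : Type*) [CommRing S] [Algebra Ω S] [Module.Finite Ω S] [IsReduced S] :
    IsReduced (Ω' ⊗[Ω] S) := by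
  classical
  obtain ⟨T, _, ⟨e⟩⟩ := exists_algEquiv_pi Ω S
  let e1 : Ω' ⊗[Ω] S ≃ₐ[Ω'] Ω' ⊗[Ω] (T → Ω) :=
    Algebra.TensorProduct.congr AlgEquiv.refl e
  let e2 : Ω' ⊗[Ω] (T → Ω) ≃ₐ[Ω'] (T → Ω') := Algebra.TensorProduct.piScalarRight Ω Ω' Ω' T
  have : IsReduced (T → Ω') := isReduced_pi
  exact isReduced_of_injective (e1.trans e2) (e1.trans e2).injective

variable {K k : Type u} [Field K] [Field k] [Algebra K k]

instance tower_ser_laurent :
    IsScalarTower (PowerSeries K) (PowerSeries k) (LaurentSeries k) :=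
  IsScalarTower.of_algebraMap_eq' rfl

instance tower_ser_om : IsScalarTower (PowerSeries K) (PowerSeries k) (Om k) := by
  refine IsScalarTower.of_algebraMap_eq' ?_
  rw [IsScalarTower.algebraMap_eq (PowerSeries K) (LaurentSeries k) (Om k),
    IsScalarTower.algebraMap_eq (PowerSeries k) (LaurentSeries k) (Om k),
    IsScalarTower.algebraMap_eq (PowerSeries K) (PowerSeries k) (LaurentSeries k),
    RingHom.comp_assoc]

theorem algebraMap_ser_injective :
    Function.Injective (algebraMap (PowerSeries K) (PowerSeries k)) := by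
  intro f g h
  ext n
  have h1 := congrArg (PowerSeries.coeff n) h
  have h2 : ∀ f : PowerSeries K, PowerSeries.coeff n (algebraMap (PowerSeries K) (PowerSeries k) f)
      = algebraMap K k (PowerSeries.coeff n f) := fun f => by
    rw [PowerSeries.algebraMap_apply'']
    exact PowerSeries.coeff_map _ _ _
  rw [h2, h2] at h1
  exact (algebraMap K k).injective h1

theorem algebraMap_ser_om_injective :
    Function.Injective (algebraMap (PowerSeries K) (Om k)) := by
  rw [IsScalarTower.algebraMap_eq (PowerSeries K) (PowerSeries k) (Om k)]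
  exact algebraMap_om_injective.comp algebraMap_ser_injective

theorem isReduced_ext_abstract {R R' Ω Ω' : Type*} [CommRing R] [CommRing R'] [Algebra R R']
    [Field Ω] [IsAlgClosed Ω] [Field Ω'] [Algebra R Ω] [Algebra R' Ω'] [Algebra R Ω']
    [IsScalarTower R R' Ω'] [Algebra Ω Ω'] [IsScalarTower R Ω Ω'] (𝒜 : Type*) [CommRing 𝒜]
    [Algebra R 𝒜] [Module.Finite R 𝒜] (h : IsReduced (Ω ⊗[R] 𝒜)) :
    IsReduced (Ω' ⊗[R'] (R' ⊗[R] 𝒜)) := by
  have h2 : IsReduced (Ω' ⊗[Ω] (Ω ⊗[R] 𝒜)) := isReduced_baseChange_field Ω Ω' _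
  let e := Algebra.TensorProduct.cancelBaseChange R Ω Ω' Ω' 𝒜
  have h3 : IsReduced (Ω' ⊗[R] 𝒜) := isReduced_of_injective e.symm e.symm.injective
  let e' := Algebra.TensorProduct.cancelBaseChange R R' Ω' Ω' 𝒜
  exact isReduced_of_injective e' e'.injective

theorem exists_embedding : ∃ F : Om K →+* Om k, ∀ x : PowerSeries K,
    F (algebraMap (PowerSeries K) (Om K) x) = algebraMap (PowerSeries K) (Om k) x := by
  let f0 : LaurentSeries K →+* Om k := IsFractionRing.lift (A := PowerSeries K)
    (g := algebraMap (PowerSeries K) (Om k)) algebraMap_ser_om_injective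
  let _ : Algebra (LaurentSeries K) (Om k) := f0.toAlgebra
  let F : Om K →ₐ[LaurentSeries K] Om k := IsAlgClosed.lift
  refine ⟨F.toRingHom, fun x => ?_⟩
  rw [IsScalarTower.algebraMap_apply (PowerSeries K) (LaurentSeries K) (Om K)]
  exact (F.commutes _).trans (IsFractionRing.lift_algebraMap algebraMap_ser_om_injective x)

/-- The generic fibre of the extended family is reduced. -/
theorem isReduced_ext (𝒜 : Type u) [CommRing 𝒜] [Algebra (PowerSeries K) 𝒜]
    [Module.Finite (PowerSeries K) 𝒜] (h : IsReduced (Om K ⊗[PowerSeries K] 𝒜)) :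
    IsReduced (Om k ⊗[PowerSeries k] (PowerSeries k ⊗[PowerSeries K] 𝒜)) := by
  obtain ⟨F, hF⟩ := exists_embedding (K := K) (k := k)
  let _ : Algebra (Om K) (Om k) := F.toAlgebra
  have t1 : IsScalarTower (PowerSeries K) (Om K) (Om k) :=
    IsScalarTower.of_algebraMap_eq fun x => (hF x).symm
  exact isReduced_ext_abstract 𝒜 h

theorem model_algebraMap_eq {𝒜 : Type u} [CommRing 𝒜] [Algebra (PowerSeries K) 𝒜] {B : Type u}
    [CommRing B] [Algebra K B] {π : 𝒜 →+* B} (h : IsModel K π) (r : PowerSeries K) :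
    π (algebraMap (PowerSeries K) 𝒜 r) = algebraMap K B (constantCoeff r) := by
  have h1 := h.smul r 1
  rw [map_one, ← Algebra.algebraMap_eq_smul_one, ← Algebra.algebraMap_eq_smul_one] at h1
  exact h1

/-- The special fibre of the extended family. -/
theorem exists_extPi {𝒜 : Type u} [CommRing 𝒜] [Algebra (PowerSeries K) 𝒜] {B : Type u}
    [CommRing B] [Algebra K B] {π : 𝒜 →+* B} (h : IsModel K π) :
    ∃ ρ : PowerSeries k ⊗[PowerSeries K] 𝒜 →+* k ⊗[K] B,
      ∀ (a : PowerSeries k) (x : 𝒜), ρ (a ⊗ₜ x) = constantCoeff a ⊗ₜ π x := by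
  let _ : Algebra (PowerSeries K) (k ⊗[K] B) :=
    ((algebraMap K (k ⊗[K] B)).comp (constantCoeff (R := K))).toAlgebra
  have hal : ∀ r : PowerSeries K, algebraMap (PowerSeries K) (k ⊗[K] B) r =
      algebraMap K (k ⊗[K] B) (constantCoeff r) := fun r => rfl
  let f : PowerSeries k →ₐ[PowerSeries K] k ⊗[K] B :=
    { (algebraMap k (k ⊗[K] B)).comp (constantCoeff (R := k)) with
      commutes' := fun r => by
        change algebraMap k (k ⊗[K] B) (constantCoeff (algebraMap (PowerSeries K)
          (PowerSeries k) r)) = _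
        have h1 : constantCoeff (algebraMap (PowerSeries K) (PowerSeries k) r) =
            algebraMap K k (constantCoeff r) := by
          rw [PowerSeries.algebraMap_apply'', ← PowerSeries.coeff_zero_eq_constantCoeff_apply,
            PowerSeries.coeff_map, PowerSeries.coeff_zero_eq_constantCoeff_apply]
        rw [h1, hal, IsScalarTower.algebraMap_apply K k (k ⊗[K] B)] }
  let g : 𝒜 →ₐ[PowerSeries K] k ⊗[K] B :=
    { (Algebra.TensorProduct.includeRight : B →ₐ[K] k ⊗[K] B).toRingHom.comp π with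
      commutes' := fun r => by
        change (Algebra.TensorProduct.includeRight : B →ₐ[K] k ⊗[K] B) (π (algebraMap _ 𝒜 r)) = _
        rw [model_algebraMap_eq h, AlgHom.commutes, hal] }
  refine ⟨(Algebra.TensorProduct.productMap f g).toRingHom, fun a x => ?_⟩
  have h1 : Algebra.TensorProduct.productMap f g (a ⊗ₜ x) = f a * g x :=
    Algebra.TensorProduct.productMap_apply_tmul f g a x
  refine h1.trans ?_
  change (algebraMap k (k ⊗[K] B) (constantCoeff a)) * ((1 : k) ⊗ₜ[K] π x) = _
  rw [Algebra.TensorProduct.algebraMap_apply, Algebra.TensorProduct.tmul_mul_tmul, mul_one,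
    one_mul]
  rfl

/-- A smoothing over `K` extends to a smoothing over `k`. -/
theorem exists_model_ext {𝒜 : Type u} [CommRing 𝒜] [Algebra (PowerSeries K) 𝒜] {B : Type u}
    [CommRing B] [Algebra K B] {π : 𝒜 →+* B} (h : IsModel K π) :
    ∃ ρ : PowerSeries k ⊗[PowerSeries K] 𝒜 →+* k ⊗[K] B, IsModel k ρ := by
  classical
  obtain ⟨ρ, hρ⟩ := exists_extPi (k := k) h
  have hfin := h.finite
  have hflat := h.flat
  have hfree := h.free
  have hX : ρ (algebraMap (PowerSeries k) (PowerSeries k ⊗[PowerSeries K] 𝒜) X) = 0 := by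
    rw [Algebra.TensorProduct.algebraMap_apply]
    change ρ ((X : PowerSeries k) ⊗ₜ[PowerSeries K] (1 : 𝒜)) = 0
    rw [hρ, PowerSeries.constantCoeff_X, TensorProduct.zero_tmul]
  have hC : ∀ r : k, ρ (algebraMap (PowerSeries k) (PowerSeries k ⊗[PowerSeries K] 𝒜) (C r)) =
      algebraMap k (k ⊗[K] B) r := by
    intro r
    rw [Algebra.TensorProduct.algebraMap_apply]
    change ρ ((C r : PowerSeries k) ⊗ₜ[PowerSeries K] (1 : 𝒜)) = r ⊗ₜ 1
    rw [hρ, PowerSeries.constantCoeff_C, map_one]
  let b := Module.Free.chooseBasis (PowerSeries K) 𝒜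
  let b' := b.baseChange (PowerSeries k)
  have hli : LinearIndependent k (fun i => ρ (b' i)) := by
    have h1 : (fun i => ρ (b' i)) = fun i => ((h.basis b).baseChange k) i := by
      funext i
      rw [Basis.baseChange_apply, Basis.baseChange_apply, hρ, map_one, h.basis_apply]
    rw [h1]
    exact ((h.basis b).baseChange k).linearIndependent
  refine ⟨ρ, inferInstance, inferInstance, isReduced_ext 𝒜 h.reduced, ?_, ?_, hC⟩
  · intro z
    induction z using TensorProduct.induction_on with
    | zero => exact ⟨0, map_zero ρ⟩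
    | add x y hx hy =>
      obtain ⟨x', hx⟩ := hx
      obtain ⟨y', hy⟩ := hy
      exact ⟨x' + y', by rw [map_add, hx, hy]⟩
    | tmul c y =>
      obtain ⟨a, rfl⟩ := h.surj y
      exact ⟨(C c : PowerSeries k) ⊗ₜ a, by rw [hρ, PowerSeries.constantCoeff_C]⟩
  · exact ker_eq_of_linearIndependent hX hC b' hli

/-- Smoothable schemes stay smoothable under extensions of the base field. -/
theorem isSmoothable_ext {B : Type u} [CommRing B] [Algebra K B] (h : IsSmoothable K B) :
    IsSmoothable k (k ⊗[K] B) := by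
  rw [isSmoothable_iff] at h ⊢
  obtain ⟨𝒜, i1, i2, π, h⟩ := h
  obtain ⟨ρ, hρ⟩ := exists_model_ext (k := k) h
  exact ⟨PowerSeries k ⊗[PowerSeries K] 𝒜, Algebra.TensorProduct.instCommRing,
    Algebra.TensorProduct.leftAlgebra, ρ, hρ⟩

theorem ext_map_surjective {A B : Type u} [CommRing A] [Algebra K A] [CommRing B] [Algebra K B]
    (g : B →ₐ[K] A) (hg : Function.Surjective g) :
    Function.Surjective (Algebra.TensorProduct.map (AlgHom.id k k) g :
      k ⊗[K] B →ₐ[k] k ⊗[K] A) := by
  intro z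
  induction z using TensorProduct.induction_on with
  | zero => exact ⟨0, map_zero _⟩
  | add x y hx hy =>
    obtain ⟨x', hx⟩ := hx
    obtain ⟨y', hy⟩ := hy
    exact ⟨x' + y', by rw [map_add, hx, hy]⟩
  | tmul c y =>
    obtain ⟨a, rfl⟩ := hg y
    exact ⟨c ⊗ₜ a, by rw [Algebra.TensorProduct.map_tmul, AlgHom.id_apply]⟩

/-- Smoothable covers extend. -/
theorem dle_ext {A : Type u} [CommRing A] [Algebra K A] {N : ℕ} (h : Dle K A N) :
    Dle k (k ⊗[K] A) N := by
  obtain ⟨B, i1, i2, h1, ⟨g, hg⟩, h3⟩ := h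
  have h2 : IsSmoothable k (k ⊗[K] B) := isSmoothable_ext h1
  have h4 : finrank k (k ⊗[K] B) = finrank K B := Module.finrank_baseChange
  have h5 : Dle k (k ⊗[K] B) N := (IsSmoothable.dle h2).mono (h4.trans_le h3)
  exact h5.of_surjective _ (ext_map_surjective g hg)

end Pool.Agent.H2.FI
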