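import Pool.Agent.H6.FI.TargetsB

/-! Row AID of board fi_modules (MP_7500ea_al). -/

namespace Pool.Agent.H2.FI

open _root_.FI AMc AMt

theorem card_sof {G : Type} [Group G] (H K : Subgroup G) :
    Nat.card (H.subgroupOf K) = Nat.card (H ⊓ K : Subgroup G) := by
  rw [← Subgroup.subgroupOf_map_subtype]
  exact Nat.card_congr ((H.subgroupOf K).equivMapOfInjective K.subtype K.subtype_injective).toEquiv

/-- the order of a subgroup in terms of a homomorphism -/
theorem card_hom {G G' : Type} [Group G] [Group G'] (f : G →* G') (K : Subgroup G) :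
    Nat.card K = Nat.card (K.map f) * Nat.card (f.ker ⊓ K : Subgroup G) := by
  have h2 : Nat.card (f.ker.subgroupOf K) * (f.ker.subgroupOf K).index = Nat.card K :=
    Subgroup.card_mul_index _
  have h3 : (f.ker.subgroupOf K).index = Nat.card (K.map f) := Subgroup.relIndex_ker (K := K) f
  rw [← h2, h3, card_sof, mul_comm]

theorem card_rel {G : Type} [Group G] {H K : Subgroup G} (h : H ≤ K) :
    Nat.card H * H.relIndex K = Nat.card K := by
  have := Subgroup.relIndex_mul_relIndex ⊥ H K bot_le h
  rwa [Subgroup.relIndex_bot_left, Subgroup.relIndex_bot_left] at this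

/-- the index in terms of a homomorphism -/
theorem index_hom {G G' : Type} [Group G] [Finite G] [Group G'] (f : G →* G') (T : Subgroup G) :
    T.index = (T.map f).relIndex f.range * (T.subgroupOf f.ker).index := by
  have hle : T.map f ≤ f.range := Subgroup.map_le_range f T
  have a1 : Nat.card T * T.index = Nat.card G := Subgroup.card_mul_index T
  have a2 : Nat.card G = Nat.card f.range * Nat.card f.ker := by
    have := card_hom f ⊤
    rw [Subgroup.card_top, ← MonoidHom.range_eq_map, inf_top_eq] at this
    exact this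
  have a3 := card_hom f T
  have a4 := card_rel hle
  have a5 : Nat.card (T.subgroupOf f.ker) * (T.subgroupOf f.ker).index = Nat.card f.ker :=
    Subgroup.card_mul_index _
  have a6 : Nat.card (T.subgroupOf f.ker) = Nat.card (f.ker ⊓ T : Subgroup G) := by
    rw [card_sof, inf_comm]
  have hpos : 0 < Nat.card T := Nat.card_pos
  apply Nat.eq_of_mul_eq_mul_left hpos
  rw [a1, a2, ← a4, ← a5, a6, a3]
  ring

theorem sol_mem_image {X : Type} [Group X] (T : Subgroup X) (x : X) :
    x ∈ (sol T).map T.subtype ↔ ∃ hx : x ∈ T, (⟨x, hx⟩ : T) ∈ sol T := by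
  constructor
  · rintro ⟨y, hy, rfl⟩
    exact ⟨y.2, hy⟩
  · rintro ⟨hx, h⟩
    exact ⟨⟨x, hx⟩, h, rfl⟩

theorem claimA (h1 : T_SOL) (h4 : T_AST) (h5 : T_ASK) (h6 : T_S5S) (h7 : T_S5R) (h8 : T_S5V)
    (h9 : T_ACL) (e : ℝ) (he : 3 ≤ e) : ∀ (n : ℕ) (X : Type) [Group X] [Finite X],
    Nat.card X ≤ n → Kf X → sol X = ⊥ →
    ∀ T : Subgroup X, (Nat.card (sol T) : ℝ) ≤ (T.index : ℝ) ^ (e - 1) := by
  intro n
  induction n with
  | zero =>
    intro X _ _ hn
    exact absurd (Nat.card_pos (α := X)) (by omega)
  | succ n ih =>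
    intro X _ _ hn hK hs T
    have hTi : 1 ≤ T.index := Nat.one_le_iff_ne_zero.mpr T.index_ne_zero_of_finite
    rcases subsingleton_or_nontrivial X with hX | hX
    · have hc : Nat.card (sol T) ≤ 1 := by
        have : Subsingleton (sol T) := inferInstance
        exact Finite.card_le_one_iff_subsingleton.mpr this
      have h1' : (1 : ℝ) ≤ (T.index : ℝ) ^ (e - 1) :=
        Real.one_le_rpow (by exact_mod_cast hTi) (by linarith)
      exact le_trans (by exact_mod_cast hc) h1'
    · obtain ⟨L, hLn, γ, hAS, -⟩ := h4 X hK hs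
      have hask := h5 X L γ hs hAS
      have hN1 := hask.1
      have hNc := hask.2.2.2.1
      have hKN : Kf γ.ker := h9.1 γ.ker X γ.ker.subtype γ.ker.subtype_injective hK
      have ih0 := ih γ.ker (by omega) hKN hN1 (T.subgroupOf γ.ker)
      -- the image of the radical of `T`
      have hSsolT : Group.IsSolvable (sol T) := (h1 T).1
      have cS : Nat.card ((sol T).map T.subtype) = Nat.card (sol T) :=
        (Nat.card_congr ((sol T).equivMapOfInjective T.subtype T.subtype_injective).toEquiv).symm
      have hSs : Group.IsSolvable ((sol T).map T.subtype) :=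
        Group.isSolvable_of_surjective (f := T.subtype.subgroupMap (sol T))
          (T.subtype.subgroupMap_surjective (sol T))
      have hST : (sol T).map T.subtype ≤ T := Subgroup.map_subtype_le _
      have hSn : ∀ g ∈ T, ∀ s ∈ (sol T).map T.subtype, g * s * g⁻¹ ∈ (sol T).map T.subtype := by
        intro g hg s hsS
        obtain ⟨hx, hx'⟩ := (sol_mem_image T s).mp hsS
        refine (sol_mem_image T _).mpr ⟨T.mul_mem (T.mul_mem hg hx) (T.inv_mem hg), ?_⟩
        exact (sol_normal T).conj_mem _ hx' ⟨g, hg⟩
      generalize (sol T).map T.subtype = S at cS hSs hST hSn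
      -- the part in the kernel
      have hW : Nat.card (γ.ker ⊓ S : Subgroup X) ≤ Nat.card (sol (T.subgroupOf γ.ker)) := by
        have hWn : ((S.subgroupOf γ.ker).subgroupOf (T.subgroupOf γ.ker)).Normal := by
          refine ⟨fun x hx g => ?_⟩
          exact hSn _ g.2 _ hx
        have hWs : Group.IsSolvable ((S.subgroupOf γ.ker).subgroupOf (T.subgroupOf γ.ker)) := by
          have hinj : Function.Injective
              ((((γ.ker.subtype.comp (T.subgroupOf γ.ker).subtype).comp
                ((S.subgroupOf γ.ker).subgroupOf (T.subgroupOf γ.ker)).subtype)).codRestrict S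
                  (fun x => x.2)) := by
            intro x y hxy
            have := congrArg (fun z : S => (z : X)) hxy
            exact Subtype.ext (Subtype.ext (Subtype.ext this))
          exact Group.isSolvable_of_isSolvable_injective hinj
        have hWle := (h1 (T.subgroupOf γ.ker)).2.1 _ hWn hWs
        refine le_trans ?_ (Nat.card_le_card_of_injective (Subgroup.inclusion hWle)
          (Subgroup.inclusion_injective hWle))
        refine Nat.card_le_card_of_injective
          (fun x : (γ.ker ⊓ S : Subgroup X) =>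
            (⟨⟨⟨(x : X), x.2.1⟩, hST x.2.2⟩, x.2.2⟩ :
              ((S.subgroupOf γ.ker).subgroupOf (T.subgroupOf γ.ker)))) ?_
        intro x y hxy
        have h' := congrArg (fun z : ((S.subgroupOf γ.ker).subgroupOf (T.subgroupOf γ.ker)) =>
          (((z : T.subgroupOf γ.ker) : γ.ker) : X)) hxy
        exact Subtype.ext h'
      have hidx := index_hom γ T
      have hr1 : 1 ≤ (T.map γ).relIndex γ.range :=
        Nat.one_le_iff_ne_zero.mpr (by
          intro h0
          rw [h0, zero_mul] at hidx
          omega)
      have hkey : (Nat.card (S.map γ) : ℝ) ≤ ((T.map γ).relIndex γ.range : ℝ) ^ (e - 1) := by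
        have hle : S.map γ ≤ T.map γ := Subgroup.map_mono hST
        by_cases hA : A5 ≤ T.map γ
        · have hbot : S.map γ = ⊥ := by
            by_contra hne
            have hAS' := h7 (T.map γ) (S.map γ) hA hle (by
              rintro _ ⟨g, hg, rfl⟩ _ ⟨s, hs', rfl⟩
              exact ⟨g * s * g⁻¹, hSn g hg s hs', by simp⟩) hne
            have hsv : Group.IsSolvable (S.map γ) :=
              Group.isSolvable_of_surjective (f := γ.subgroupMap S)
                (γ.subgroupMap_surjective S)
            exact (h8 (S.map γ)).mp hsv hAS'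
          rw [hbot, Subgroup.card_bot]
          have := Real.one_le_rpow (x := ((T.map γ).relIndex γ.range : ℝ)) (z := e - 1)
            (by exact_mod_cast hr1) (by linarith)
          exact_mod_cast this
        · have hAr : A5 ≤ γ.range := by
            rw [← hAS.map]
            exact Subgroup.map_le_range γ L
          obtain ⟨b1, b2⟩ := h6 (T.map γ) γ.range (Subgroup.map_le_range γ T) hAr hA
          have b3 : Nat.card (S.map γ) ≤ 24 :=
            (Nat.card_le_card_of_injective (Subgroup.inclusion hle)
              (Subgroup.inclusion_injective hle)).trans b1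
          have b4 : (5 : ℝ) ^ (2 : ℝ) ≤ ((T.map γ).relIndex γ.range : ℝ) ^ (e - 1) :=
            le_trans (Real.rpow_le_rpow_of_exponent_le (by norm_num) (by linarith))
              (Real.rpow_le_rpow (by norm_num) (by exact_mod_cast b2) (by linarith))
          have b5 : (5 : ℝ) ^ (2 : ℝ) = 25 := by
            rw [Real.rpow_two]; norm_num
          have b6 : (Nat.card (S.map γ) : ℝ) ≤ 24 := by exact_mod_cast b3
          linarith
      have hc1 : Nat.card S = Nat.card (S.map γ) * Nat.card (γ.ker ⊓ S : Subgroup X) :=
        card_hom γ S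
      have hc2 : (Nat.card (sol T) : ℝ) ≤
          (Nat.card (S.map γ) : ℝ) * (Nat.card (sol (T.subgroupOf γ.ker)) : ℝ) := by
        rw [← cS, hc1]
        push_cast
        exact mul_le_mul_of_nonneg_left (by exact_mod_cast hW) (Nat.cast_nonneg _)
      refine hc2.trans ?_
      rw [hidx]
      push_cast
      rw [Real.mul_rpow (Nat.cast_nonneg _) (Nat.cast_nonneg _)]
      exact mul_le_mul hkey ih0 (Nat.cast_nonneg _) (by positivity)

theorem pf_AID (h1 : T_SOL) (h2 : T_SQ) (h3 : T_AKR) (h4 : T_AST) (h5 : T_ASK) (h6 : T_S5S)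
    (h7 : T_S5R) (h8 : T_S5V) (h9 : T_ACL) : T_AID := by
  have _ := h3
  intro e he X _ _ hK T
  -- reduction to trivial radical
  have hsolX := (h1 X).1
  have hker : (QuotientGroup.mk' (sol X)).ker = sol X := QuotientGroup.ker_mk' _
  have hks : Group.IsSolvable (QuotientGroup.mk' (sol X)).ker := by
    rw [hker]; exact hsolX
  have hKb : Kf (X ⧸ sol X) :=
    h9.2 X (X ⧸ sol X) (QuotientGroup.mk' (sol X)) (QuotientGroup.mk'_surjective _) hks hK
  have hsb : sol (X ⧸ sol X) = ⊥ := (h1 X).2.2.2
  have hA := claimA h1 h4 h5 h6 h7 h8 h9 e he _ (X ⧸ sol X) le_rfl hKb hsb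
    (T.map (QuotientGroup.mk' (sol X)))
  have hi1 : (T.map (QuotientGroup.mk' (sol X))).index ≤ T.index :=
    Nat.le_of_dvd (Nat.pos_of_ne_zero T.index_ne_zero_of_finite)
      (T.index_map_dvd (QuotientGroup.mk'_surjective _))
  have hsq : (sol T).index = (sol (T.map (QuotientGroup.mk' (sol X)))).index := by
    have hks2 : Group.IsSolvable ((QuotientGroup.mk' (sol X)).subgroupMap T).ker := by
      have hinj : Function.Injective
          ((T.subtype.comp ((QuotientGroup.mk' (sol X)).subgroupMap T).ker.subtype).codRestrict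
            (sol X) (fun x => by
              have hx : ((QuotientGroup.mk' (sol X)).subgroupMap T) x.1 = 1 := x.2
              have hx2 := congrArg
                (fun z : T.map (QuotientGroup.mk' (sol X)) => (z : X ⧸ sol X)) hx
              exact (QuotientGroup.eq_one_iff (N := sol X) _).mp hx2)) := by
        intro x y hxy
        have := congrArg (fun z : sol X => (z : X)) hxy
        exact Subtype.ext (Subtype.ext this)
      exact Group.isSolvable_of_isSolvable_injective hinj
    exact (h2 T (T.map (QuotientGroup.mk' (sol X))) _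
      ((QuotientGroup.mk' (sol X)).subgroupMap_surjective T) hks2).1
  rw [hsq]
  have hcard : (sol X).index = Nat.card (X ⧸ sol X) := Subgroup.index_eq_card _
  rw [hcard]
  have e1 : Nat.card (T.map (QuotientGroup.mk' (sol X))) *
      (T.map (QuotientGroup.mk' (sol X))).index = Nat.card (X ⧸ sol X) :=
    Subgroup.card_mul_index _
  have e2 : Nat.card (sol (T.map (QuotientGroup.mk' (sol X)))) *
      (sol (T.map (QuotientGroup.mk' (sol X)))).index =
        Nat.card (T.map (QuotientGroup.mk' (sol X))) :=
    Subgroup.card_mul_index _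
  have hb0 : (0 : ℝ) < ((T.map (QuotientGroup.mk' (sol X))).index : ℝ) := by
    exact_mod_cast Nat.pos_of_ne_zero (Subgroup.index_ne_zero_of_finite (H := T.map _))
  have e3 : ((T.map (QuotientGroup.mk' (sol X))).index : ℝ) ^ e =
      ((T.map (QuotientGroup.mk' (sol X))).index : ℝ) ^ (e - 1) *
        ((T.map (QuotientGroup.mk' (sol X))).index : ℝ) := by
    rw [← Real.rpow_add_one hb0.ne']
    congr 1
    ring
  have e4 : ((T.map (QuotientGroup.mk' (sol X))).index : ℝ) ^ e ≤ (T.index : ℝ) ^ e :=
    Real.rpow_le_rpow hb0.le (by exact_mod_cast hi1) (by linarith)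
  have e5 : (Nat.card (X ⧸ sol X) : ℝ) =
      (Nat.card (sol (T.map (QuotientGroup.mk' (sol X)))) : ℝ) *
        ((sol (T.map (QuotientGroup.mk' (sol X)))).index : ℝ) *
          ((T.map (QuotientGroup.mk' (sol X))).index : ℝ) := by
    rw [← e1, ← e2]
    push_cast
    ring
  rw [e5]
  have hs0 : (0 : ℝ) ≤ ((sol (T.map (QuotientGroup.mk' (sol X)))).index : ℝ) := Nat.cast_nonneg _
  calc (Nat.card (sol (T.map (QuotientGroup.mk' (sol X)))) : ℝ) *
        ((sol (T.map (QuotientGroup.mk' (sol X)))).index : ℝ) *
          ((T.map (QuotientGroup.mk' (sol X))).index : ℝ)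
      ≤ ((T.map (QuotientGroup.mk' (sol X))).index : ℝ) ^ (e - 1) *
        ((sol (T.map (QuotientGroup.mk' (sol X)))).index : ℝ) *
          ((T.map (QuotientGroup.mk' (sol X))).index : ℝ) :=
        mul_le_mul_of_nonneg_right (mul_le_mul_of_nonneg_right hA hs0) hb0.le
    _ = ((T.map (QuotientGroup.mk' (sol X))).index : ℝ) ^ e *
        ((sol (T.map (QuotientGroup.mk' (sol X)))).index : ℝ) := by
        rw [e3]; ring
    _ ≤ (T.index : ℝ) ^ e * ((sol (T.map (QuotientGroup.mk' (sol X)))).index : ℝ) :=
        mul_le_mul_of_nonneg_right e4 hs0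

end Pool.Agent.H2.FI
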