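import Pool.Agent.H2.FI.Waring

/-!
# Extension of the base field: apolar algebras
-/

open MvPolynomial Module

namespace Pool.Agent.H2.FI

open Pool.Agent.H14.RF Pool.Agent.H2.WG

variable {K k : Type*} [Field K] [Field k] [Algebra K k] {σ : Type*}

theorem mono_map (m : σ →₀ ℕ) :
    (monomial m (1 : k)) = map (algebraMap K k) (monomial m (1 : K)) := by
  simp [map_monomial]

theorem map_mem_annIdeal {φ : MvPolynomial σ K →ₗ[K] K} {g : MvPolynomial σ K}
    (h : g ∈ annIdeal φ) : map (algebraMap K k) g ∈ annIdeal (extFun k φ) := by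
  rw [mem_annIdeal_iff_monomial] at h ⊢
  intro m
  rw [mono_map (K := K) m, ← map_mul, extFun_map, h m, map_zero]

/-- The dimension of the apolar algebra does not change under extensions of the base field. -/
theorem finrank_extFun [Finite σ] {φ : MvPolynomial σ K →ₗ[K] K} {c : ℕ} (hφ : IsForm φ c) :
    finrank k (FormAlg (extFun k φ)) = finrank K (FormAlg φ) := by
  classical
  have hfin : Module.Finite K (FormAlg φ) := hφ.finite
  let e := Module.finBasis K (FormAlg φ)
  have hlift : ∀ i, ∃ g : MvPolynomial σ K, Ideal.Quotient.mk (annIdeal φ) g = e i :=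
    fun i => Ideal.Quotient.mk_surjective _
  choose g hg using hlift
  let b := Module.Free.chooseBasis K k
  let v : Fin (finrank K (FormAlg φ)) → FormAlg (extFun k φ) := fun i =>
    Ideal.Quotient.mk (annIdeal (extFun k φ)) (map (algebraMap K k) (g i))
  -- linear independence
  have hli : LinearIndependent k v := by
    rw [Fintype.linearIndependent_iff]
    intro c hc
    have h1 : (∑ i, c i • map (algebraMap K k) (g i)) ∈ annIdeal (extFun k φ) := by
      rw [← Ideal.Quotient.eq_zero_iff_mem, map_sum, ← hc]
      exact Finset.sum_congr rfl fun i _ => rfl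
    rw [mem_annIdeal_iff_monomial] at h1
    have h2 : ∀ m : σ →₀ ℕ, ∑ i, c i * algebraMap K k (φ (g i * monomial m 1)) = 0 := by
      intro m
      have h3 := h1 m
      rw [Finset.sum_mul, map_sum] at h3
      rw [← h3]
      refine Finset.sum_congr rfl fun i _ => ?_
      rw [smul_mul_assoc, map_smul, smul_eq_mul,
        mono_map (K := K) (k := k) m, ← map_mul, extFun_map]
    have h4 : ∀ j, ∀ i, b.coord j (c i) = 0 := by
      intro j
      have h5 : (∑ i, b.coord j (c i) • g i) ∈ annIdeal φ := by
        rw [mem_annIdeal_iff_monomial]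
        intro m
        rw [Finset.sum_mul, map_sum]
        have h6 := congrArg (b.coord j) (h2 m)
        rw [map_sum, map_zero] at h6
        rw [← h6]
        refine Finset.sum_congr rfl fun i _ => ?_
        rw [smul_mul_assoc, map_smul, mul_comm (c i), ← Algebra.smul_def, map_smul, smul_eq_mul,
          smul_eq_mul, mul_comm]
      have h7 : ∑ i, b.coord j (c i) • e i = 0 := by
        rw [← Ideal.Quotient.eq_zero_iff_mem, map_sum] at h5
        rw [← h5]
        refine Finset.sum_congr rfl fun i _ => ?_
        rw [← hg i]
        rfl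
      exact Fintype.linearIndependent_iff.mp e.linearIndependent _ h7
    intro i
    apply b.ext_elem
    intro j
    have h8 := h4 j i
    rw [Basis.coord_apply] at h8
    rw [h8, map_zero, Finsupp.zero_apply]
  -- spanning
  have hsp : ⊤ ≤ Submodule.span k (Set.range v) := by
    rintro z -
    obtain ⟨p, rfl⟩ := Ideal.Quotient.mk_surjective z
    have hmon : ∀ m : σ →₀ ℕ, Ideal.Quotient.mk (annIdeal (extFun k φ)) (monomial m 1) ∈
        Submodule.span k (Set.range v) := by
      intro m
      have h1 : (monomial m (1 : K)) - ∑ i, e.repr (Ideal.Quotient.mk (annIdeal φ)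
          (monomial m 1)) i • g i ∈ annIdeal φ := by
        rw [← Ideal.Quotient.eq_zero_iff_mem, map_sub, map_sum, sub_eq_zero]
        conv_lhs => rw [← e.sum_repr (Ideal.Quotient.mk (annIdeal φ) (monomial m 1))]
        refine Finset.sum_congr rfl fun i _ => ?_
        rw [← hg i]
        rfl
      have h2 := map_mem_annIdeal (k := k) h1
      rw [← Ideal.Quotient.eq_zero_iff_mem, map_sub, ← mono_map, map_sub,
        sub_eq_zero] at h2
      rw [h2, map_sum, map_sum]
      refine Submodule.sum_mem _ fun i _ => ?_
      rw [smul_eq_C_mul, map_mul, map_C, ← smul_eq_C_mul]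
      exact Submodule.smul_mem _ _ (Submodule.subset_span (Set.mem_range_self i))
    rw [p.as_sum, map_sum]
    refine Submodule.sum_mem _ fun m _ => ?_
    rw [show monomial m (coeff m p) = coeff m p • monomial m 1 by
      rw [smul_monomial, smul_eq_mul, mul_one]]
    exact Submodule.smul_mem _ _ (hmon m)
  rw [finrank_eq_card_basis (Basis.mk hli hsp), Fintype.card_fin]

end Pool.Agent.H2.FI
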