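import Pool.Agent.H2.FI.Smooth
import Pool.Agent.H14.RF.Growth

/-!
# Extension of the base field: growth bounds
-/

open TensorProduct Module

namespace Pool.Agent.H2.FI

open Pool.Agent.H12.Defect Pool.Agent.H15.Defect Pool.Agent.H14.RF

universe u

variable {K k : Type u} [Field K] [Field k] [Algebra K k]

/-- The extension of a power surjects onto the power of the extension. -/
theorem exists_surjective_pow_ext (A : Type u) [CommRing A] [Algebra K A] (n : ℕ) :
    ∃ F : k ⊗[K] (⨂[K] _ : Fin n, A) →ₐ[k] (⨂[k] _ : Fin n, k ⊗[K] A),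
      Function.Surjective F := by
  let Φ : (⨂[K] _ : Fin n, A) →ₐ[K] (⨂[k] _ : Fin n, k ⊗[K] A) :=
    prodHom fun i => ((PiTensorProduct.singleAlgHom (R := k)
      (A := fun _ : Fin n => k ⊗[K] A) i).restrictScalars K).comp
        Algebra.TensorProduct.includeRight
  let F : k ⊗[K] (⨂[K] _ : Fin n, A) →ₐ[k] (⨂[k] _ : Fin n, k ⊗[K] A) :=
    Algebra.TensorProduct.lift (Algebra.ofId k _) Φ (fun _ _ => Commute.all _ _)
  refine ⟨F, surjective_of_single F fun i z => ?_⟩
  induction z using TensorProduct.induction_on with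
  | zero => exact ⟨0, by rw [map_zero, map_zero]⟩
  | add x y hx hy =>
    obtain ⟨x', hx⟩ := hx
    obtain ⟨y', hy⟩ := hy
    exact ⟨x' + y', by rw [map_add, map_add, hx, hy]⟩
  | tmul c a =>
    refine ⟨c ⊗ₜ PiTensorProduct.singleAlgHom (R := K) (A := fun _ : Fin n => A) i a, ?_⟩
    have h1 : F (c ⊗ₜ PiTensorProduct.singleAlgHom (R := K) (A := fun _ : Fin n => A) i a) =
        algebraMap k _ c * Φ (PiTensorProduct.singleAlgHom (R := K) (A := fun _ : Fin n => A) i a) :=
      Algebra.TensorProduct.lift_tmul _ _ _ _ _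
    have h2 : Φ (PiTensorProduct.singleAlgHom (R := K) (A := fun _ : Fin n => A) i a) =
        PiTensorProduct.singleAlgHom (R := k) (A := fun _ : Fin n => k ⊗[K] A) i (1 ⊗ₜ a) :=
      prodHom_single _ i a
    have h3 : c ⊗ₜ[K] a = c • ((1 : k) ⊗ₜ[K] a) := by
      rw [TensorProduct.smul_tmul', smul_eq_mul, mul_one]
    rw [h1, h2, h3, map_smul, Algebra.smul_def]

/-- Growth bounds extend. -/
theorem bd_ext {A : Type u} [CommRing A] [Algebra K A] {r : ℝ} (h : Bd K A r) :
    Bd k (k ⊗[K] A) r := by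
  intro ρ hρ
  obtain ⟨C, hC⟩ := h ρ hρ
  refine ⟨C, fun n => ?_⟩
  obtain ⟨N, hN, hle⟩ := hC n
  obtain ⟨F, hF⟩ := exists_surjective_pow_ext (K := K) (k := k) A n
  exact ⟨N, (dle_ext (K := K) (k := k) hN).of_surjective F hF, hle⟩

end Pool.Agent.H2.FI
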