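import Pool.Agent.H2.FI.Apolar
import Pool.Agent.H2.WG.Main

/-!
# Q1 over an algebraically closed field implies Q1 over algebraically closed subfields
-/

open MvPolynomial Module Filter Topology

namespace Pool.Agent.H2.FI

open Pool.Agent.H12.Defect Pool.Agent.H14.MM Pool.Agent.H14.RF Pool.Agent.H2.WG

universe u

/-- The limit statement of Q1 over `k`, for all nonempty finite schemes and all `ε > e`. -/
def AllLimit (k : Type u) [Field k] (e : ℝ) : Prop :=
  ∀ (A : Type u) [CommRing A] [Algebra k A] [Module.Finite k A] [Nontrivial A] (ε : ℝ),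
    e < ε → Tendsto (growthRatio k A ε) atTop (𝓝 0)

theorem allLimit_down (K k : Type u) [Field K] [Field k] [IsAlgClosed K] [IsAlgClosed k]
    [Algebra K k] {e : ℝ} (he : 0 ≤ e) (h : AllLimit k e) : AllLimit K e := by
  have : Infinite K := IsAlgClosed.instInfinite
  have : Infinite k := IsAlgClosed.instInfinite
  refine (all_iff_forms he).mpr fun n c φ hφ hφ0 => ?_
  have h1 := (all_iff_forms he).mp h n c (extFun k φ) (isForm_extFun hφ) (extFun_ne_zero hφ0)
  have h2 := (waring_iff_gr (isForm_extFun hφ) (extFun_ne_zero hφ0) he).mpr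
    ((limit_iff_gr (isForm_extFun hφ) (extFun_ne_zero hφ0) he).mp h1)
  refine (limit_iff_gr hφ hφ0 he).mpr ((waring_iff_gr hφ hφ0 he).mp fun ε hε => ?_)
  filter_upwards [h2 ε hε] with N hN
  have h3 : Wn (extFun k φ) c N = Wn φ c N := by
    unfold Wn
    rw [← extFun_pw, waringRank_extFun]
  rw [h3, finrank_extFun hφ] at hN
  exact hN

end Pool.Agent.H2.FI
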