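import Pool.Agent.H6.FI.TargetsA

/-! Row NL of board fi_modules (MP_7500ea_al). -/

namespace Pool.Agent.H2.FI

open _root_.FI

theorem lbr (a b : ℝ) (p q : ℕ) (hq : 0 < q) (ha : 0 ≤ a) (hb : 0 ≤ b) (h : a ^ q ≤ b ^ p) :
    a ≤ b ^ ((p : ℝ) / (q : ℝ)) := by
  have hq' : (q : ℝ) ≠ 0 := by positivity
  have h1 : a = (a ^ q) ^ ((q : ℝ)⁻¹) := by
    rw [← Real.rpow_natCast a q, ← Real.rpow_mul ha, mul_inv_cancel₀ hq', Real.rpow_one]
  have h2 : (a ^ q) ^ ((q : ℝ)⁻¹) ≤ (b ^ p) ^ ((q : ℝ)⁻¹) :=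
    Real.rpow_le_rpow (by positivity) h (by positivity)
  have h3 : (b ^ p) ^ ((q : ℝ)⁻¹) = b ^ ((p : ℝ) / (q : ℝ)) := by
    rw [← Real.rpow_natCast b p, ← Real.rpow_mul hb, div_eq_mul_inv]
  rw [h1]
  exact h2.trans h3.le

theorem ubr (a b : ℝ) (p q : ℕ) (hq : 0 < q) (ha : 0 ≤ a) (hb : 0 ≤ b) (h : b ^ p ≤ a ^ q) :
    b ^ ((p : ℝ) / (q : ℝ)) ≤ a := by
  have hq' : (q : ℝ) ≠ 0 := by positivity
  have h1 : (a ^ q) ^ ((q : ℝ)⁻¹) = a := by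
    rw [← Real.rpow_natCast a q, ← Real.rpow_mul ha, mul_inv_cancel₀ hq', Real.rpow_one]
  have h2 : (b ^ p) ^ ((q : ℝ)⁻¹) ≤ (a ^ q) ^ ((q : ℝ)⁻¹) :=
    Real.rpow_le_rpow (by positivity) h (by positivity)
  have h3 : (b ^ p) ^ ((q : ℝ)⁻¹) = b ^ ((p : ℝ) / (q : ℝ)) := by
    rw [← Real.rpow_natCast b p, ← Real.rpow_mul hb, div_eq_mul_inv]
  rw [← h3]
  exact h2.trans h1.le

theorem c0_le : c0 ≤ 29 / 10 := by
  have h := ubr (29 / 10) 24 1 3 (by norm_num) (by norm_num) (by norm_num) (by norm_num)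
  have e : ((1 : ℕ) : ℝ) / ((3 : ℕ) : ℝ) = (1 : ℝ) / 3 := by norm_num
  rw [e] at h
  exact h

theorem c0_nn : 0 ≤ c0 := by
  unfold c0
  positivity

/-- `x ^ (91/25) = x ^ 2 * x ^ (41/25)` -/
theorem split91 (x : ℝ) (hx : 0 < x) : x ^ ((91 : ℝ) / 25) = x ^ 2 * x ^ ((41 : ℝ) / 25) := by
  have e : (91 : ℝ) / 25 = ((2 : ℕ) : ℝ) + 41 / 25 := by norm_num
  rw [e, Real.rpow_add hx, Real.rpow_natCast]

/-- lower bound for `41/25`-th powers -/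
theorem lb41 (a b x : ℝ) (ha : 0 ≤ a) (hb : 0 ≤ b) (hx : b ≤ x) (h : a ^ 25 ≤ b ^ 41) :
    a ≤ x ^ ((41 : ℝ) / 25) := by
  have h1 := lbr a b 41 25 (by norm_num) ha hb h
  have e : ((41 : ℕ) : ℝ) / ((25 : ℕ) : ℝ) = (41 : ℝ) / 25 := by norm_num
  rw [e] at h1
  exact h1.trans (Real.rpow_le_rpow hb hx (by norm_num))

theorem lb91 (a b x : ℝ) (ha : 0 ≤ a) (hb : 0 ≤ b) (hx : b ≤ x) (h : a ^ 25 ≤ b ^ 91) :
    a ≤ x ^ ((91 : ℝ) / 25) := by
  have h1 := lbr a b 91 25 (by norm_num) ha hb h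
  have e : ((91 : ℕ) : ℝ) / ((25 : ℕ) : ℝ) = (91 : ℝ) / 25 := by norm_num
  rw [e] at h1
  exact h1.trans (Real.rpow_le_rpow hb hx (by norm_num))

theorem lb39 (a b x : ℝ) (ha : 0 ≤ a) (hb : 0 ≤ b) (hx : b ≤ x) (h : a ^ 50 ≤ b ^ 39) :
    a ≤ x ^ ((39 : ℝ) / 50) := by
  have h1 := lbr a b 39 50 (by norm_num) ha hb h
  have e : ((39 : ℕ) : ℝ) / ((50 : ℕ) : ℝ) = (39 : ℝ) / 50 := by norm_num
  rw [e] at h1
  exact h1.trans (Real.rpow_le_rpow hb hx (by norm_num))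

/-- case `ε = 1` -/
theorem case1 (u g i : ℝ) (hu : 2 ≤ u) (hg0 : 0 ≤ g) (hg : g ≤ u - 1) (hi : u ≤ i) :
    c0 * (g * u) ≤ i ^ ((91 : ℝ) / 25) := by
  have h1 : u ^ ((91 : ℝ) / 25) ≤ i ^ ((91 : ℝ) / 25) :=
    Real.rpow_le_rpow (by linarith) hi (by norm_num)
  refine le_trans ?_ h1
  rw [split91 u (by linarith)]
  have h2 : (29 / 10 : ℝ) ≤ u ^ ((41 : ℝ) / 25) :=
    lb41 (29 / 10) 2 u (by norm_num) (by norm_num) hu (by norm_num)
  have h3 : c0 * (g * u) ≤ (29 / 10) * (u * u) :=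
    mul_le_mul c0_le (mul_le_mul_of_nonneg_right (by linarith) (by linarith)) (by positivity)
      (by norm_num)
  refine h3.trans ?_
  have h4 : (29 / 10 : ℝ) * (u * u) ≤ u ^ ((41 : ℝ) / 25) * (u * u) :=
    mul_le_mul_of_nonneg_right h2 (mul_self_nonneg u)
  refine h4.trans (le_of_eq ?_)
  ring

/-- case `ε = 2` -/
theorem case2a (g h i : ℝ) (hg0 : 0 ≤ g) (hg : g ≤ 1) (hh0 : 0 ≤ h) (hh : h ≤ 6)
    (hi : 4 ≤ i) : c0 * (g * h * 4 * 2) ≤ i ^ ((91 : ℝ) / 25) := by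
  have h1 : (48 * (29 / 10) : ℝ) ≤ i ^ ((91 : ℝ) / 25) :=
    lb91 _ 4 i (by norm_num) (by norm_num) hi (by norm_num)
  refine le_trans ?_ h1
  have h2 : g * h ≤ 1 * 6 := mul_le_mul hg hh hh0 (by norm_num)
  have h3 : c0 * (g * h * 4 * 2) ≤ (29 / 10) * (48) :=
    mul_le_mul c0_le (by linarith) (by positivity) (by norm_num)
  linarith

theorem case2b (u g h i : ℝ) (hu : 4 ≤ u) (hg0 : 0 ≤ g) (hg : g ≤ u - 1) (hh0 : 0 ≤ h)
    (hh : h ≤ 6) (hi : 2 * u ≤ i) : c0 * (g * h * 4 * u) ≤ i ^ ((91 : ℝ) / 25) := by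
  have h1 : (2 * u) ^ ((91 : ℝ) / 25) ≤ i ^ ((91 : ℝ) / 25) :=
    Real.rpow_le_rpow (by linarith) hi (by norm_num)
  refine le_trans ?_ h1
  rw [Real.mul_rpow (by norm_num) (by linarith), split91 u (by linarith)]
  have h2 : (12 : ℝ) ≤ 2 ^ ((91 : ℝ) / 25) :=
    lb91 12 2 2 (by norm_num) (by norm_num) le_rfl (by norm_num)
  have h3 : (9 : ℝ) ≤ u ^ ((41 : ℝ) / 25) :=
    lb41 9 4 u (by norm_num) (by norm_num) hu (by norm_num)
  have h4 : g * h ≤ u * 6 := mul_le_mul (by linarith) hh hh0 (by linarith)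
  have h5 : g * h * 4 * u ≤ (u * 6) * 4 * u := by
    have : g * h * 4 ≤ (u * 6) * 4 := by linarith
    exact mul_le_mul_of_nonneg_right this (by linarith)
  have h6 : c0 * (g * h * 4 * u) ≤ (29 / 10) * ((u * 6) * 4 * u) :=
    mul_le_mul c0_le h5 (by positivity) (by norm_num)
  have h7 : (12 : ℝ) * (u ^ 2 * 9) ≤ 2 ^ ((91 : ℝ) / 25) * (u ^ 2 * u ^ ((41 : ℝ) / 25)) :=
    mul_le_mul h2 (mul_le_mul_of_nonneg_left h3 (by positivity)) (by positivity) (by positivity)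
  refine h6.trans (le_trans ?_ h7)
  nlinarith [sq_nonneg u]

/-- case `ε = 3` -/
theorem case3 (u g h i : ℝ) (hu : 2 ≤ u) (hg0 : 0 ≤ g) (hg : g ≤ u - 1) (hh0 : 0 ≤ h)
    (hh : c0 * h ≤ (9 : ℝ) ^ ((9 : ℝ) / 4)) (hi : 9 * u ≤ i) :
    c0 * (g * h * 9 * u) ≤ i ^ ((91 : ℝ) / 25) := by
  have h1 : (9 * u) ^ ((91 : ℝ) / 25) ≤ i ^ ((91 : ℝ) / 25) :=
    Real.rpow_le_rpow (by linarith) hi (by norm_num)
  refine le_trans ?_ h1
  rw [Real.mul_rpow (by norm_num) (by linarith), split91 u (by linarith)]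
  have h2 : (1 : ℝ) ≤ u ^ ((41 : ℝ) / 25) :=
    lb41 1 1 u (by norm_num) (by norm_num) (by linarith) (by norm_num)
  have h3 : (9 : ℝ) ^ ((9 : ℝ) / 4) * 9 ≤ 9 ^ ((91 : ℝ) / 25) := by
    have e : (9 : ℝ) ^ ((9 : ℝ) / 4) * 9 = (9 : ℝ) ^ ((9 : ℝ) / 4 + 1) := by
      rw [Real.rpow_add (by norm_num), Real.rpow_one]
    rw [e]
    exact Real.rpow_le_rpow_of_exponent_le (by norm_num) (by norm_num)
  have h4 : c0 * (g * h * 9 * u) = (c0 * h) * 9 * (g * u) := by ring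
  rw [h4]
  have h5 : (c0 * h) * 9 * (g * u) ≤ ((9 : ℝ) ^ ((9 : ℝ) / 4) * 9) * (u * u) :=
    mul_le_mul (by linarith) (mul_le_mul_of_nonneg_right (by linarith) (by linarith))
      (by positivity) (by positivity)
  refine h5.trans ?_
  have h6 : u * u ≤ u ^ 2 * u ^ ((41 : ℝ) / 25) := by
    have : u ^ 2 * 1 ≤ u ^ 2 * u ^ ((41 : ℝ) / 25) :=
      mul_le_mul_of_nonneg_left h2 (by positivity)
    nlinarith
  exact mul_le_mul h3 h6 (mul_self_nonneg u) (by positivity)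

/-- case `ε ≥ 4` -/
theorem case4 (u g h i x : ℝ) (hx : 4 ≤ x) (hg0 : 0 ≤ g) (hh0 : 0 ≤ h)
    (hg : g ≤ u - 1) (hu : u = 2 ∨ 3 ≤ u)
    (hh : c0 * h ≤ (x * x : ℝ) ^ ((9 : ℝ) / 4)) (hi : x * x * u ≤ 2 * i) :
    c0 * (g * h * (x * x) * u) ≤ i ^ ((91 : ℝ) / 25) := by
  have hu2 : 2 ≤ u := by
    rcases hu with hu | hu
    · exact hu.ge
    · linarith
  have hx0 : (0 : ℝ) < x := by linarith
  have hxx : (0 : ℝ) < x * x := by positivity
  have h1 : ((x * x) * (u / 2)) ^ ((91 : ℝ) / 25) ≤ i ^ ((91 : ℝ) / 25) :=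
    Real.rpow_le_rpow (by positivity) (by linarith) (by norm_num)
  refine le_trans ?_ h1
  rw [Real.mul_rpow (by positivity) (by positivity)]
  -- (x*x)^(91/25) = (x*x)^(9/4) * (x*x) * x^(39/50)
  have e1 : (x * x) ^ ((91 : ℝ) / 25) = (x * x) ^ ((9 : ℝ) / 4) * (x * x) * x ^ ((39 : ℝ) / 50) := by
    have e2 : (x * x : ℝ) = x ^ (2 : ℝ) := by
      rw [Real.rpow_two]; ring
    have e3 : ∀ s : ℝ, (x * x) ^ s = x ^ (2 * s) := by
      intro s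
      rw [e2, ← Real.rpow_mul hx0.le]
    rw [e3, e3]
    have e4 : x ^ (2 * ((9 : ℝ) / 4)) * (x * x) * x ^ ((39 : ℝ) / 50)
        = x ^ (2 * ((9 : ℝ) / 4)) * x ^ (2 : ℝ) * x ^ ((39 : ℝ) / 50) := by rw [← e2]
    rw [e4, ← Real.rpow_add hx0, ← Real.rpow_add hx0]
    congr 1
    norm_num
  rw [e1]
  have h4 : c0 * (g * h * (x * x) * u) = (c0 * h) * (x * x) * (g * u) := by ring
  rw [h4]
  have hP : 0 ≤ (x * x) ^ ((9 : ℝ) / 4) * (x * x) := by positivity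
  have h5 : (c0 * h) * (x * x) ≤ (x * x) ^ ((9 : ℝ) / 4) * (x * x) :=
    mul_le_mul_of_nonneg_right hh hxx.le
  have key : g * u ≤ x ^ ((39 : ℝ) / 50) * (u / 2) ^ ((91 : ℝ) / 25) := by
    rcases hu with hu | hu
    · subst hu
      have a1 : (2 : ℝ) ≤ x ^ ((39 : ℝ) / 50) :=
        lb39 2 4 x (by norm_num) (by norm_num) hx (by norm_num)
      have a2 : ((2 : ℝ) / 2) ^ ((91 : ℝ) / 25) = 1 := by
        rw [div_self (by norm_num), Real.one_rpow]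
      rw [a2]
      linarith
    · have a1 : (29 / 10 : ℝ) ≤ x ^ ((39 : ℝ) / 50) :=
        lb39 (29 / 10) 4 x (by norm_num) (by norm_num) hx (by norm_num)
      have a2 : (6 : ℝ) ≤ u ^ ((41 : ℝ) / 25) :=
        lb41 6 3 u (by norm_num) (by norm_num) hu (by norm_num)
      have a3 : (1 / 13 : ℝ) ≤ (1 / 2) ^ ((91 : ℝ) / 25) :=
        lb91 (1 / 13) (1 / 2) (1 / 2) (by norm_num) (by norm_num) le_rfl (by norm_num)
      have e5 : (u / 2) ^ ((91 : ℝ) / 25)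
          = (u ^ 2 * u ^ ((41 : ℝ) / 25)) * (1 / 2) ^ ((91 : ℝ) / 25) := by
        have : u / 2 = u * (1 / 2) := by ring
        rw [this, Real.mul_rpow (by linarith) (by norm_num), split91 u (by linarith)]
      rw [e5]
      have a4 : (u ^ 2 * 6) * (1 / 13 : ℝ)
          ≤ (u ^ 2 * u ^ ((41 : ℝ) / 25)) * (1 / 2) ^ ((91 : ℝ) / 25) :=
        mul_le_mul (mul_le_mul_of_nonneg_left a2 (by positivity)) a3 (by norm_num) (by positivity)
      have a5 : (29 / 10 : ℝ) * ((u ^ 2 * 6) * (1 / 13 : ℝ)) ≤ x ^ ((39 : ℝ) / 50) *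
          ((u ^ 2 * u ^ ((41 : ℝ) / 25)) * (1 / 2) ^ ((91 : ℝ) / 25)) :=
        mul_le_mul a1 a4 (by positivity) (by positivity)
      refine le_trans ?_ a5
      nlinarith [mul_nonneg hg0 (by linarith : (0 : ℝ) ≤ u)]
  have h6 : (c0 * h) * (x * x) * (g * u) ≤ ((x * x) ^ ((9 : ℝ) / 4) * (x * x)) *
      (x ^ ((39 : ℝ) / 50) * (u / 2) ^ ((91 : ℝ) / 25)) :=
    mul_le_mul h5 key (by positivity) hP
  refine h6.trans (le_of_eq ?_)
  ring

theorem pf_NL : T_NL := by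
  intro u ε g h i hu hε hg hh hgu h1 hq h2 hc hi h3 h4
  have gR : (g : ℝ) ≤ (u : ℝ) - 1 := by
    have : ((g + 1 : ℕ) : ℝ) ≤ (u : ℝ) := Nat.cast_le.mpr hgu
    push_cast at this
    linarith
  have uR : (2 : ℝ) ≤ (u : ℝ) := by exact_mod_cast hu
  have iR : ((u * ε : ℕ) : ℝ) ≤ (i : ℝ) := Nat.cast_le.mpr hi
  have g0 : (0 : ℝ) ≤ (g : ℝ) := Nat.cast_nonneg g
  have h0 : (0 : ℝ) ≤ (h : ℝ) := Nat.cast_nonneg h
  push_cast at iR
  rcases Nat.lt_or_ge ε 4 with hlt | hge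
  · have hcases : ε = 1 ∨ ε = 2 ∨ ε = 3 := by omega
    rcases hcases with rfl | rfl | rfl
    · have hh1 := h1 rfl
      subst hh1
      have := case1 u g i uR g0 gR (by simpa using iR)
      have e : ((g * 1 * (1 * 1) * u : ℕ) : ℝ) = (g : ℝ) * u := by push_cast; ring
      rw [e]
      exact this
    · have hh6 : (h : ℝ) ≤ 6 := by exact_mod_cast h2 rfl
      have hd : 2 ∣ u := hq 2 Nat.prime_two (dvd_refl 2)
      have e : ((g * h * (2 * 2) * u : ℕ) : ℝ) = (g : ℝ) * h * 4 * u := by push_cast; ring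
      rw [e]
      have iR2 : 2 * (u : ℝ) ≤ (i : ℝ) := by
        have : (u : ℝ) * 2 ≤ i := by simpa using iR
        linarith
      rcases Nat.lt_or_ge u 4 with hu4 | hu4
      · have hu2 : u = 2 := by
          obtain ⟨k, hk⟩ := hd
          omega
        subst hu2
        have n2 : ((2 : ℕ) : ℝ) = 2 := by norm_num
        rw [n2] at gR iR2
        have := case2a g h i g0 (by linarith) h0 hh6 (by linarith)
        rw [n2]
        exact this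
      · exact case2b u g h i (by exact_mod_cast hu4) g0 gR h0 hh6 iR2
    · have hc' := hc (by norm_num)
      have e9 : (((3 * 3 : ℕ) : ℝ)) = 9 := by norm_num
      rw [e9] at hc'
      have i9 : 9 * (u : ℝ) ≤ i := by exact_mod_cast h3 rfl
      have e : ((g * h * (3 * 3) * u : ℕ) : ℝ) = (g : ℝ) * h * 9 * u := by push_cast; ring
      rw [e]
      exact case3 u g h i uR g0 gR h0 hc' i9
  · have hc' := hc (by omega)
    have ex : (((ε * ε : ℕ) : ℝ)) = (ε : ℝ) * ε := by push_cast; ring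
    rw [ex] at hc'
    have i4 : (ε : ℝ) * ε * u ≤ 2 * i := by exact_mod_cast h4 hge
    have e : ((g * h * (ε * ε) * u : ℕ) : ℝ) = (g : ℝ) * h * ((ε : ℝ) * ε) * u := by
      push_cast; ring
    rw [e]
    refine case4 u g h i ε (by exact_mod_cast hge) g0 h0 gR ?_ hc' i4
    rcases Nat.lt_or_ge u 3 with hu3 | hu3
    · left
      have : u = 2 := by omega
      subst this
      norm_num
    · right
      exact_mod_cast hu3

end Pool.Agent.H2.FI
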