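import Mathlib

/-!
# Solutions of polynomial systems in extensions of algebraically closed fields
-/

open MvPolynomial

namespace Pool.Agent.H2.FI

variable {K k : Type*} [Field K] [Field k] [Algebra K k] [IsAlgClosed K]
  {σ : Type*} [Finite σ]

/-- A polynomial system over an algebraically closed field `K` with a solution in an extension
field has a solution in `K`. -/
theorem exists_point_of_ext (P : Set (MvPolynomial σ K)) (y : σ → k)
    (hy : ∀ p ∈ P, aeval y p = 0) : ∃ x : σ → K, ∀ p ∈ P, eval x p = 0 := by
  have hI : Ideal.span P ≠ ⊤ := by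
    intro h
    have h1 : (1 : MvPolynomial σ K) ∈ Ideal.span P := by rw [h]; trivial
    have h2 : Ideal.span P ≤ RingHom.ker (aeval (R := K) y : MvPolynomial σ K →ₐ[K] k) := by
      rw [Ideal.span_le]
      intro p hp
      exact hy p hp
    have h3 := h2 h1
    rw [RingHom.mem_ker, map_one] at h3
    exact one_ne_zero h3
  obtain ⟨M, hM, hle⟩ := Ideal.exists_le_maximal _ hI
  obtain ⟨x, hx⟩ := (isMaximal_iff_eq_vanishingIdeal_singleton (K := K)).mp hM
  refine ⟨x, fun p hp => ?_⟩
  have h4 : p ∈ M := hle (Ideal.subset_span hp)
  rw [hx, mem_vanishingIdeal_singleton_iff] at h4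
  exact h4

/-- A polynomial over `K` which vanishes at all solutions in `K` of a polynomial system over `K`
vanishes at all solutions in every extension field. -/
theorem vanish_of_vanish_base (P : Set (MvPolynomial σ K)) (g : MvPolynomial σ K)
    (hg : ∀ x : σ → K, (∀ p ∈ P, eval x p = 0) → eval x g = 0) (y : σ → k)
    (hy : ∀ p ∈ P, aeval y p = 0) : aeval y g = 0 := by
  have h1 : g ∈ vanishingIdeal K (zeroLocus K (Ideal.span P)) := by
    rw [mem_vanishingIdeal_iff]
    intro x hx
    refine hg x fun p hp => ?_
    exact hx p (Ideal.subset_span hp)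
  rw [vanishingIdeal_zeroLocus_eq_radical] at h1
  obtain ⟨n, hn⟩ := h1
  have h2 : Ideal.span P ≤ RingHom.ker (aeval (R := K) y : MvPolynomial σ K →ₐ[K] k) := by
    rw [Ideal.span_le]
    intro p hp
    exact hy p hp
  have h3 := h2 hn
  rw [RingHom.mem_ker, map_pow] at h3
  exact eq_zero_of_pow_eq_zero h3

/-- The solutions in `K` of a polynomial system over `K` are Zariski dense in the set of solutions
in any extension field `k`: a polynomial over `k` which vanishes at all the former vanishes at all
the latter. -/
theorem dense_points (P : Set (MvPolynomial σ K)) (g : MvPolynomial σ k)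
    (hg : ∀ x : σ → K, (∀ p ∈ P, eval x p = 0) → eval (fun i => algebraMap K k (x i)) g = 0)
    (y : σ → k) (hy : ∀ p ∈ P, aeval y p = 0) : eval y g = 0 := by
  classical
  -- a basis of `k` over `K`
  let b := Module.Free.chooseBasis K k
  -- the coordinates of `g`
  let G : Module.Free.ChooseBasisIndex K k → MvPolynomial σ K := fun i =>
    ∑ m ∈ g.support, monomial m (b.repr (coeff m g) i)
  have hG : ∀ i, ∀ x : σ → K, eval x (G i) =
      b.repr (eval (fun j => algebraMap K k (x j)) g) i := by
    intro i x
    rw [eval_eq _ g, map_sum, map_sum, Finsupp.finsetSum_apply]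
    refine Finset.sum_congr rfl fun m _ => ?_
    rw [eval_monomial]
    have h1 : coeff m g * ∏ j ∈ m.support, algebraMap K k (x j) ^ m j =
        (∏ j ∈ m.support, x j ^ m j) • coeff m g := by
      rw [Algebra.smul_def, map_prod, mul_comm]
      simp only [map_pow]
    rw [h1, map_smul, Finsupp.smul_apply, smul_eq_mul, mul_comm, Finsupp.prod]
  have hG0 : ∀ i, aeval y (G i) = 0 := by
    intro i
    refine vanish_of_vanish_base P (G i) (fun x hx => ?_) y hy
    rw [hG, hg x hx, map_zero, Finsupp.zero_apply]
  -- reconstruct the value at `y`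
  have h5 : eval y g = ∑ m ∈ g.support, coeff m g * ∏ j ∈ m.support, y j ^ m j := eval_eq y g
  let S : Finset (Module.Free.ChooseBasisIndex K k) :=
    g.support.biUnion fun m => (b.repr (coeff m g)).support
  have h6 : eval y g = ∑ i ∈ S, b i * aeval y (G i) := by
    rw [h5]
    have h7 : ∀ m ∈ g.support, coeff m g = ∑ i ∈ S, b.repr (coeff m g) i • b i := by
      intro m hm
      conv_lhs => rw [← b.linearCombination_repr (coeff m g)]
      rw [Finsupp.linearCombination_apply, Finsupp.sum]
      refine Finset.sum_subset (Finset.subset_biUnion_of_mem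
        (fun m => (b.repr (coeff m g)).support) hm) fun i _ hi => ?_
      rw [Finsupp.notMem_support_iff.mp hi, zero_smul]
    have h8 : ∀ i, aeval y (G i) = ∑ m ∈ g.support,
        algebraMap K k (b.repr (coeff m g) i) * ∏ j ∈ m.support, y j ^ m j := by
      intro i
      rw [map_sum]
      refine Finset.sum_congr rfl fun m _ => ?_
      rw [aeval_monomial, Finsupp.prod]
    simp only [h8, Finset.mul_sum]
    rw [Finset.sum_comm]
    refine Finset.sum_congr rfl fun m hm => ?_
    conv_lhs => rw [h7 m hm]
    rw [Finset.sum_mul]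
    refine Finset.sum_congr rfl fun i _ => ?_
    rw [Algebra.smul_def]
    ring
  rw [h6]
  exact Finset.sum_eq_zero fun i _ => by rw [hG0, mul_zero]

end Pool.Agent.H2.FI
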