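import Pool.Agent.H2.FI.Nullst
import Pool.Agent.H2.WG.Basic

/-!
# Extension of the base field: forms and Waring ranks
-/

open MvPolynomial Module

namespace Pool.Agent.H2.FI

open Pool.Agent.H14.RF Pool.Agent.H2.WG

variable {K k : Type*} [Field K] [Field k] [Algebra K k] {σ : Type*}

variable (k) in
/-- The form over `k` given by a form over `K`. -/
noncomputable def extFun (φ : MvPolynomial σ K →ₗ[K] K) : MvPolynomial σ k →ₗ[k] k :=
  (basisMonomials σ k).constr k fun m => algebraMap K k (φ (monomial m 1))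

theorem extFun_monomial (φ : MvPolynomial σ K →ₗ[K] K) (m : σ →₀ ℕ) :
    extFun k φ (monomial m 1) = algebraMap K k (φ (monomial m 1)) := by
  have h := (basisMonomials σ k).constr_basis k
    (fun m => algebraMap K k (φ (monomial m 1))) m
  rwa [coe_basisMonomials] at h

theorem functional_eq_sum {F : Type*} [Field F] (ψ : MvPolynomial σ F →ₗ[F] F)
    (g : MvPolynomial σ F) : ψ g = ∑ m ∈ g.support, coeff m g * ψ (monomial m 1) := by
  conv_lhs => rw [g.as_sum]
  rw [map_sum]
  refine Finset.sum_congr rfl fun m _ => ?_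
  rw [show monomial m (coeff m g) = coeff m g • monomial m 1 by
    rw [smul_monomial, smul_eq_mul, mul_one], map_smul, smul_eq_mul]

theorem functional_ext {F : Type*} [Field F] {ψ ψ' : MvPolynomial σ F →ₗ[F] F}
    (h : ∀ m, ψ (monomial m 1) = ψ' (monomial m 1)) : ψ = ψ' := by
  refine LinearMap.ext fun g => ?_
  rw [functional_eq_sum ψ, functional_eq_sum ψ']
  exact Finset.sum_congr rfl fun m _ => by rw [h m]

theorem extFun_map (φ : MvPolynomial σ K →ₗ[K] K) (g : MvPolynomial σ K) :
    extFun k φ (map (algebraMap K k) g) = algebraMap K k (φ g) := by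
  induction g using MvPolynomial.induction_on' with
  | monomial m a =>
    rw [map_monomial, show monomial m (algebraMap K k a) = algebraMap K k a • monomial m 1 by
      rw [smul_monomial, smul_eq_mul, mul_one], map_smul, extFun_monomial, smul_eq_mul,
      show monomial m a = a • monomial m 1 by rw [smul_monomial, smul_eq_mul, mul_one],
      map_smul, smul_eq_mul, map_mul]
  | add p q hp hq => rw [map_add, map_add, map_add, map_add, hp, hq]

theorem isForm_extFun {φ : MvPolynomial σ K →ₗ[K] K} {c : ℕ} (h : IsForm φ c) :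
    IsForm (extFun k φ) c := fun m hm => by rw [extFun_monomial, h m hm, map_zero]

theorem extFun_ne_zero {φ : MvPolynomial σ K →ₗ[K] K} (h : φ ≠ 0) : extFun k φ ≠ 0 := by
  intro h0
  refine h (functional_ext fun m => ?_)
  have h1 := extFun_monomial (k := k) φ m
  rw [h0, LinearMap.zero_apply] at h1
  rw [LinearMap.zero_apply]
  exact (algebraMap K k).injective (h1.symm.trans (map_zero _).symm)

theorem extFun_pw {σ : Type} (φ : MvPolynomial σ K →ₗ[K] K) (J : Type) [Fintype J] :
    extFun k (pw φ J) = pw (extFun k φ) J := by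
  refine functional_ext fun m => ?_
  rw [extFun_monomial, pw_monomial, pw_monomial, map_prod]
  exact Finset.prod_congr rfl fun j _ => (extFun_monomial φ _).symm

/-- The Waring rank does not drop under extensions of an algebraically closed field. -/
theorem hasWaring_descend [IsAlgClosed K] {τ : Type} [Finite τ] {ψ : MvPolynomial τ K →ₗ[K] K}
    {L r : ℕ} (h : HasWaring (extFun k ψ) L r) : HasWaring ψ L r := by
  classical
  obtain ⟨c, a, h⟩ := h
  let Q : (τ →₀ ℕ) → MvPolynomial (Fin r ⊕ Fin r × τ) K := fun m =>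
    ∑ s, X (Sum.inl s) * ∏ j ∈ m.support, X (Sum.inr (s, j)) ^ m j - C (ψ (monomial m 1))
  let y : Fin r ⊕ Fin r × τ → k := Sum.elim c fun p => a p.1 p.2
  obtain ⟨x, hx⟩ := exists_point_of_ext (Q '' {m | m.degree = L}) y (by
    rintro _ ⟨m, hm, rfl⟩
    have h1 := h (monomial m 1) (isHomogeneous_monomial 1 hm)
    rw [extFun_monomial] at h1
    simp only [Q, map_sub, map_sum, map_mul, aeval_X, map_prod, map_pow, aeval_C, y, Sum.elim_inl,
      Sum.elim_inr]
    rw [h1, sub_eq_zero]
    refine Finset.sum_congr rfl fun s _ => ?_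
    rw [eval_monomial, one_mul, Finsupp.prod])
  refine ⟨fun s => x (Sum.inl s), fun s j => x (Sum.inr (s, j)), fun g hg => ?_⟩
  have h2 : ∀ m : τ →₀ ℕ, m.degree = L → ψ (monomial m 1) =
      ∑ s, x (Sum.inl s) * ∏ j ∈ m.support, x (Sum.inr (s, j)) ^ m j := by
    intro m hm
    have h3 := hx (Q m) ⟨m, hm, rfl⟩
    simp only [Q, map_sub, map_sum, map_mul, eval_X, map_prod, map_pow, eval_C] at h3
    exact (sub_eq_zero.mp h3).symm
  rw [functional_eq_sum ψ g]
  have h4 : ∀ m ∈ g.support, coeff m g * ψ (monomial m 1) =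
      ∑ s, x (Sum.inl s) * (coeff m g * ∏ j ∈ m.support, x (Sum.inr (s, j)) ^ m j) := by
    intro m hm
    have hm' : m.degree = L := by
      have := hg (mem_support_iff.mp hm)
      rw [Finsupp.degree_eq_weight_one]
      exact this
    rw [h2 m hm', Finset.mul_sum]
    exact Finset.sum_congr rfl fun s _ => by ring
  rw [Finset.sum_congr rfl h4, Finset.sum_comm]
  refine Finset.sum_congr rfl fun s _ => ?_
  rw [← Finset.mul_sum, eval_eq]

theorem hasWaring_extend {τ : Type} {ψ : MvPolynomial τ K →ₗ[K] K}
    {L r : ℕ} (h : HasWaring ψ L r) : HasWaring (extFun k ψ) L r := by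
  obtain ⟨c, a, h⟩ := h
  refine ⟨fun s => algebraMap K k (c s), fun s j => algebraMap K k (a s j), fun g hg => ?_⟩
  rw [functional_eq_sum (extFun k ψ) g]
  have h4 : ∀ m ∈ g.support, coeff m g * extFun k ψ (monomial m 1) =
      ∑ s, algebraMap K k (c s) * (coeff m g * ∏ j ∈ m.support, algebraMap K k (a s j) ^ m j) := by
    intro m hm
    have hm' : m.degree = L := by
      have := hg (mem_support_iff.mp hm)
      rw [Finsupp.degree_eq_weight_one]
      exact this
    rw [extFun_monomial, h (monomial m 1) (isHomogeneous_monomial 1 hm'), map_sum, Finset.mul_sum]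
    refine Finset.sum_congr rfl fun s _ => ?_
    rw [eval_monomial, one_mul, Finsupp.prod, map_mul, map_prod]
    simp only [map_pow]
    ring
  rw [Finset.sum_congr rfl h4, Finset.sum_comm]
  refine Finset.sum_congr rfl fun s _ => ?_
  rw [← Finset.mul_sum, eval_eq]

theorem waringRank_extFun [IsAlgClosed K] {τ : Type} [Finite τ] (ψ : MvPolynomial τ K →ₗ[K] K)
    (L : ℕ) : waringRank (extFun k ψ) L = waringRank ψ L := by
  unfold waringRank
  congr 1
  ext r
  exact ⟨hasWaring_descend, hasWaring_extend⟩

end Pool.Agent.H2.FI
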